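import Pool.Agent.Y51.SR4.Cnt
import Pool.Agent.Y587.SR.Auto
import Pool.Agent.Y153.SR.Det01

/-!
Project SR (helper748), part 4: from disjoint intervals to all boxes (job SR4-ALLB).
-/

open Finset Filter Topology MeasureTheory

set_option autoImplicit false
set_option linter.unusedSectionVars false

namespace Pool.Agent.Y51.SR4

open Pool.Agent.Y748.SR Pool.Agent.Y587.SR

theorem sdet_cont (k : ℕ) : Continuous (sdet (k := k)) := by
  unfold sdet sn
  refine Continuous.matrix_det ?_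
  refine continuous_matrix fun i j => ?_
  simp only [Matrix.of_apply]
  exact Real.continuous_sinc.comp (by fun_prop)

theorem sdet_perm {k : ℕ} (σ : Equiv.Perm (Fin k)) (x : Fin k → ℝ) : sdet (x ∘ σ) = sdet x := by
  unfold sdet
  rw [← Matrix.det_submatrix_equiv_self σ (Matrix.of fun i j => sn (x i - x j))]
  rfl

lemma bx_pi {k : ℕ} (a b : Fin k → ℝ) :
    (Set.univ.pi fun i => Set.Ioc (a i) (b i)) = bx a b := by
  ext y
  simp [bx]

lemma int_bx {k : ℕ} (a b : Fin k → ℝ) :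
    ∫ x in bx a b, sdet x = ∫ x in Set.Icc a b, sdet x := by
  rw [← bx_pi]
  refine setIntegral_congr_set ?_
  rw [volume_pi]
  exact Measure.univ_pi_Ioc_ae_eq_Icc

lemma int_bx_perm {k : ℕ} (a b : Fin k → ℝ) (σ : Equiv.Perm (Fin k)) :
    ∫ x in bx (a ∘ σ) (b ∘ σ), sdet x = ∫ x in bx a b, sdet x := by
  rw [int_bx, int_bx, ← int_perm]
  simp only [sdet_perm]

lemma corO_perm (hCO : S_CO) {u : ℕ → ℝ} (hu : Sq u) (k N : ℕ) (a b : Fin k → ℝ)
    (σ : Equiv.Perm (Fin k)) : corO u k N (a ∘ σ) (b ∘ σ) = corO u k N a b := by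
  rw [← hCO u hu, ← hCO u hu, corr_Fc, corr_Fc]
  congr 1
  exact intervalIntegral.integral_congr fun x _ => Fc_perm u a b σ x

/-! ### Cells -/

/-- left ends -/
noncomputable def lo (M : ℕ) {k : ℕ} (a : Fin k → ℝ) (c : Fin k → ℤ) : Fin k → ℝ :=
  fun i => max (a i) (((c i : ℝ) - 1) / M)

/-- right ends -/
noncomputable def hi (M : ℕ) {k : ℕ} (b : Fin k → ℝ) (c : Fin k → ℤ) : Fin k → ℝ :=
  fun i => min (b i) ((c i : ℝ) / M)

/-- the cell of a point -/
noncomputable def ce (M : ℕ) {k : ℕ} (y : Fin k → ℝ) : Fin k → ℤ := fun i => ⌈(M : ℝ) * y i⌉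

/-- the cells inside `(-L, L]` -/
noncomputable def SS (L M : ℕ) : Finset ℤ := Finset.Ioc (-((L * M : ℕ) : ℤ)) ((L * M : ℕ) : ℤ)

lemma SS_card (L M : ℕ) : (SS L M).card = 2 * L * M := by
  unfold SS
  rw [Int.card_Ioc]
  have : ((L * M : ℕ) : ℤ) - -((L * M : ℕ) : ℤ) = ((2 * L * M : ℕ) : ℤ) := by
    push_cast
    ring
  rw [this, Int.toNat_natCast]

lemma ceil_iff {M : ℕ} (hM : 1 ≤ M) (y : ℝ) (e : ℤ) :
    ⌈(M : ℝ) * y⌉ = e ↔ ((e : ℝ) - 1) / M < y ∧ y ≤ (e : ℝ) / M := by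
  have hM' : (0 : ℝ) < M := by exact_mod_cast hM
  rw [Int.ceil_eq_iff, div_lt_iff₀ hM', le_div_iff₀ hM', mul_comm y]

lemma cell_eq {M : ℕ} (hM : 1 ≤ M) {k : ℕ} (a b : Fin k → ℝ) (c : Fin k → ℤ) :
    bx a b ∩ {y | ce M y = c} = bx (lo M a c) (hi M b c) := by
  ext y
  simp only [Set.mem_inter_iff, Set.mem_ofPred_eq, bx, Set.mem_Ioc, lo, hi, max_lt_iff,
    le_min_iff]
  constructor
  · rintro ⟨h1, h2⟩ i
    have h3 := congrFun h2 i
    have h4 := (ceil_iff hM (y i) (c i)).1 h3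
    exact ⟨⟨(h1 i).1, h4.1⟩, (h1 i).2, h4.2⟩
  · intro h
    refine ⟨fun i => ⟨(h i).1.1, (h i).2.1⟩, ?_⟩
    funext i
    exact (ceil_iff hM (y i) (c i)).2 ⟨(h i).1.2, (h i).2.2⟩

lemma ce_mem {L M : ℕ} (hM : 1 ≤ M) {y : ℝ} (h1 : -(L : ℝ) < y) (h2 : y ≤ L) :
    ⌈(M : ℝ) * y⌉ ∈ SS L M := by
  have hM' : (0 : ℝ) < M := by exact_mod_cast hM
  unfold SS
  rw [Finset.mem_Ioc]
  constructor
  · rw [Int.lt_ceil]
    push_cast
    nlinarith
  · rw [Int.ceil_le]
    push_cast
    nlinarith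

/-- all cells -/
noncomputable def CC (k L M : ℕ) : Finset (Fin k → ℤ) := Fintype.piFinset fun _ => SS L M

lemma ce_mem_CC {k L M : ℕ} (hM : 1 ≤ M) {a b : Fin k → ℝ} (ha : ∀ i, -(L : ℝ) ≤ a i)
    (hb : ∀ i, b i ≤ L) {y : Fin k → ℝ} (hy : y ∈ bx a b) : ce M y ∈ CC k L M := by
  unfold CC
  rw [Fintype.mem_piFinset]
  intro i
  exact ce_mem hM ((ha i).trans_lt (hy i).1) ((hy i).2.trans (hb i))

/-! ### Counting the cells with two equal coordinates -/

open Classical in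
lemma eqcount {m : ℕ} (S : Finset ℤ) (i j : Fin (m + 1)) (hij : i ≠ j) :
    ((Fintype.piFinset fun _ : Fin (m + 1) => S).filter fun c => c i = c j).card ≤
      S.card ^ m := by
  have h : ((Fintype.piFinset fun _ : Fin (m + 1) => S).filter fun c => c i = c j).card ≤
      (Fintype.piFinset fun _ : Fin m => S).card := by
    refine Finset.card_le_card_of_injOn (fun c => fun t => c (j.succAbove t)) ?_ ?_
    · intro c hc
      rw [Finset.mem_coe, Finset.mem_filter, Fintype.mem_piFinset] at hc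
      rw [Finset.mem_coe, Fintype.mem_piFinset]
      intro t
      exact hc.1 _
    · intro c hc c' hc' h
      rw [Finset.mem_coe, Finset.mem_filter] at hc hc'
      have h' : ∀ s, c (j.succAbove s) = c' (j.succAbove s) := fun s => congrFun h s
      funext t
      by_cases ht : t = j
      · obtain ⟨s, hs⟩ := Fin.exists_succAbove_eq hij
        rw [ht, ← hc.2, ← hc'.2, ← hs]
        exact h' s
      · obtain ⟨s, hs⟩ := Fin.exists_succAbove_eq ht
        rw [← hs]
        exact h' s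
  rwa [Fintype.card_piFinset, Finset.prod_const, Finset.card_univ, Fintype.card_fin] at h

open Classical in
lemma noninj_card (m L M : ℕ) :
    ((CC (m + 1) L M).filter fun c => ¬ Function.Injective c).card ≤
      (m + 1) ^ 2 * (2 * L * M) ^ m := by
  have h1 : ((CC (m + 1) L M).filter fun c => ¬ Function.Injective c) ⊆
      (univ : Finset (Fin (m + 1))).offDiag.biUnion fun p =>
        (CC (m + 1) L M).filter fun c => c p.1 = c p.2 := by
    intro c hc
    rw [Finset.mem_filter, Function.Injective] at hc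
    obtain ⟨hc1, hc2⟩ := hc
    push Not at hc2
    obtain ⟨i, j, h, hij⟩ := hc2
    rw [Finset.mem_biUnion]
    refine ⟨(i, j), ?_, ?_⟩
    · rw [Finset.mem_offDiag]
      exact ⟨Finset.mem_univ _, Finset.mem_univ _, hij⟩
    · rw [Finset.mem_filter]
      exact ⟨hc1, h⟩
  refine (Finset.card_le_card h1).trans ?_
  refine Finset.card_biUnion_le.trans ?_
  have h2 : ∀ p ∈ (univ : Finset (Fin (m + 1))).offDiag,
      ((CC (m + 1) L M).filter fun c => c p.1 = c p.2).card ≤ (2 * L * M) ^ m := by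
    intro p hp
    rw [Finset.mem_offDiag] at hp
    have h3 := eqcount (SS L M) p.1 p.2 hp.2.2
    rw [SS_card] at h3
    exact h3
  refine (Finset.sum_le_sum h2).trans ?_
  rw [Finset.sum_const, smul_eq_mul]
  refine Nat.mul_le_mul_right _ ?_
  rw [Finset.offDiag_card, Finset.card_univ, Fintype.card_fin, sq]
  exact Nat.sub_le _ _

open Classical in
lemma noninj_bound (k L : ℕ) : ∃ K : ℝ, 0 ≤ K ∧ ∀ M : ℕ, 1 ≤ M →
    (((CC k L M).filter fun c => ¬ Function.Injective c).card : ℝ) * (1 / M : ℝ) ^ k ≤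
      K / M := by
  rcases Nat.eq_zero_or_pos k with rfl | hk
  · refine ⟨0, le_rfl, fun M hM => ?_⟩
    have : ((CC 0 L M).filter fun c => ¬ Function.Injective c) = ∅ := by
      rw [Finset.filter_eq_empty_iff]
      intro c _
      rw [not_not]
      exact Function.injective_of_subsingleton _
    rw [this]
    simp
  · obtain ⟨m, rfl⟩ : ∃ m, k = m + 1 := ⟨k - 1, by omega⟩
    refine ⟨((m : ℝ) + 1) ^ 2 * (2 * L) ^ m, by positivity, fun M hM => ?_⟩
    have hM' : (0 : ℝ) < M := by exact_mod_cast hM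
    have h1 : (((CC (m + 1) L M).filter fun c => ¬ Function.Injective c).card : ℝ) ≤
        ((m : ℝ) + 1) ^ 2 * (2 * L * M) ^ m := by exact_mod_cast noninj_card m L M
    refine (mul_le_mul_of_nonneg_right h1 (by positivity)).trans (le_of_eq ?_)
    rw [mul_pow (2 * (L : ℝ)) (M : ℝ) m, div_pow, one_pow, pow_succ (M : ℝ) m]
    field_simp

/-! ### Integrals over the cells -/

lemma bx_sub_Icc {k : ℕ} (a b : Fin k → ℝ) : bx a b ⊆ Set.Icc a b := fun _ hy =>
  ⟨fun i => (hy i).1.le, fun i => (hy i).2⟩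

lemma int_cell (k : ℕ) {M : ℕ} (hM : 1 ≤ M) (a b : Fin k → ℝ) (c : Fin k → ℤ) :
    0 ≤ ∫ x in bx (lo M a c) (hi M b c), sdet x ∧
      ∫ x in bx (lo M a c) (hi M b c), sdet x ≤ (1 / M : ℝ) ^ k := by
  have hM' : (0 : ℝ) < M := by exact_mod_cast hM
  refine ⟨setIntegral_nonneg (bx_meas _ _) fun x _ => (Y153.SR.t_DET01 k x).1, ?_⟩
  have hsub : bx (lo M a c) (hi M b c) ⊆
      Set.Icc (fun i => ((c i : ℝ) - 1) / M) (fun i => (c i : ℝ) / M) := by
    intro y hy
    refine ⟨fun i => ?_, fun i => ?_⟩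
    · exact (le_max_right _ _).trans (hy i).1.le
    · exact (hy i).2.trans (min_le_right _ _)
  have hvol : (volume (Set.Icc (fun i => ((c i : ℝ) - 1) / M)
      (fun i => (c i : ℝ) / M))).toReal = (1 / M : ℝ) ^ k := by
    rw [Real.volume_Icc_pi_toReal (fun i => by
      simp only
      exact div_le_div_of_nonneg_right (by linarith) hM'.le)]
    have : ∀ i ∈ (univ : Finset (Fin k)), (c i : ℝ) / M - ((c i : ℝ) - 1) / M = 1 / M :=
      fun i _ => by ring
    rw [Finset.prod_congr rfl this, Finset.prod_const, Finset.card_univ, Fintype.card_fin]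
  have hfin : volume (Set.Icc (fun i => ((c i : ℝ) - 1) / M) (fun i => (c i : ℝ) / M)) ≠ ⊤ :=
    isCompact_Icc.measure_lt_top.ne
  have h1 := norm_setIntegral_le_of_norm_le_const (μ := volume)
    (s := bx (lo M a c) (hi M b c)) (f := sdet) (C := 1)
    ((measure_mono hsub).trans_lt hfin.lt_top) (fun x _ => by
      rw [Real.norm_of_nonneg (Y153.SR.t_DET01 k x).1]
      exact (Y153.SR.t_DET01 k x).2)
  rw [one_mul] at h1
  have h2 : volume.real (bx (lo M a c) (hi M b c)) ≤ (1 / M : ℝ) ^ k := by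
    rw [← hvol]
    exact ENNReal.toReal_mono hfin (measure_mono hsub)
  exact (le_abs_self _).trans (h1.trans h2)

lemma int_split {k L : ℕ} {M : ℕ} (hM : 1 ≤ M) {a b : Fin k → ℝ} (ha : ∀ i, -(L : ℝ) ≤ a i)
    (hb : ∀ i, b i ≤ L) : ∫ x in bx a b, sdet x =
      ∑ c ∈ CC k L M, ∫ x in bx (lo M a c) (hi M b c), sdet x := by
  have h1 : bx a b = ⋃ c ∈ CC k L M, bx (lo M a c) (hi M b c) := by
    ext y
    rw [Set.mem_iUnion₂]
    constructor
    · intro hy
      refine ⟨ce M y, ce_mem_CC hM ha hb hy, ?_⟩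
      rw [← cell_eq hM]
      exact ⟨hy, rfl⟩
    · rintro ⟨c, -, hc⟩
      rw [← cell_eq hM] at hc
      exact hc.1
  rw [h1]
  refine integral_biUnion_finset _ (fun c _ => bx_meas _ _) ?_ fun c _ => ?_
  · intro c _ c' _ hcc'
    simp only [Function.onFun]
    rw [← cell_eq hM, ← cell_eq hM, Set.disjoint_left]
    rintro y ⟨-, h2⟩ ⟨-, h3⟩
    exact hcc' (h2.symm.trans h3)
  · exact (box_integrable (sdet_cont k) _ _).mono_set (bx_sub_Icc _ _)

/-! ### Numbers of tuples -/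

lemma Tn_zero (u : ℕ → ℝ) {k : ℕ} (A : Set (Fin k → ℝ)) (x : ℝ)
    (h : ∀ n : Fin k → ℕ, Function.Injective n → (∀ i, 1 ≤ n i) →
      (fun i => u (n i) - x) ∉ A) : Tn u A x = 0 := by
  have : {n : Fin k → ℕ | Function.Injective n ∧ (∀ i, 1 ≤ n i) ∧
      (fun i => u (n i) - x) ∈ A} = ∅ := by
    ext n
    simp only [Set.mem_ofPred_eq, Set.mem_empty_iff_false, iff_false]
    rintro ⟨h1, h2, h3⟩
    exact h n h1 h2 h3
  unfold Tn
  rw [this, Set.ncard_empty, Nat.cast_zero]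

/-- pairs in the same cell -/
def Dg (L M : ℕ) : Set (Fin 2 → ℝ) :=
  bx (fun _ => -(L : ℝ)) (fun _ => (L : ℝ)) ∩ {y | ⌈(M : ℝ) * y 0⌉ = ⌈(M : ℝ) * y 1⌉}

lemma Dg_bd (L M : ℕ) : Bd L (Dg L M) := fun y hy =>
  bx_bd (fun _ => le_rfl) (fun _ => le_rfl) y hy.1

section

variable {u : ℕ → ℝ} (hu : Sq u)

include hu

lemma Tn_cells {k L M : ℕ} (hM : 1 ≤ M) {a b : Fin k → ℝ} (ha : ∀ i, -(L : ℝ) ≤ a i)
    (hb : ∀ i, b i ≤ L) (x : ℝ) :
    Tn u (bx a b) x = ∑ c ∈ CC k L M, Tn u (bx (lo M a c) (hi M b c)) x := by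
  rw [Tn_part hu (bx_bd ha hb) (ce M) (CC k L M) (fun y hy => ce_mem_CC hM ha hb hy) x]
  refine Finset.sum_congr rfl fun c _ => ?_
  rw [cell_eq hM]

lemma cell_bd {k L M : ℕ} {a b : Fin k → ℝ} (ha : ∀ i, -(L : ℝ) ≤ a i)
    (hb : ∀ i, b i ≤ L) (c : Fin k → ℤ) : Bd L (bx (lo M a c) (hi M b c)) :=
  bx_bd (fun i => (ha i).trans (le_max_left _ _)) fun i => (min_le_left _ _).trans (hb i)

lemma corO_split {k L M : ℕ} (hM : 1 ≤ M) {a b : Fin k → ℝ} (ha : ∀ i, -(L : ℝ) ≤ a i)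
    (hb : ∀ i, b i ≤ L) (N : ℕ) :
    corO u k N a b = ∑ c ∈ CC k L M, corO u k N (lo M a c) (hi M b c) := by
  simp only [corO_eq]
  have h1 : Tn u (bx a b) = fun x => ∑ c ∈ CC k L M, Tn u (bx (lo M a c) (hi M b c)) x := by
    funext x
    exact Tn_cells hu hM ha hb x
  rw [h1, mean_sum]
  intro c _
  exact Tn_int hu (cell_bd hu ha hb c) (bx_meas _ _) _ _

open Classical in
lemma non_le {k L M : ℕ} (hM : 1 ≤ M) {a b : Fin k → ℝ} (ha : ∀ i, -(L : ℝ) ≤ a i)
    (hb : ∀ i, b i ≤ L) (x : ℝ) :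
    ∑ c ∈ (CC k L M).filter (fun c => ¬ Function.Injective c),
      Tn u (bx (lo M a c) (hi M b c)) x ≤ Tn u (Dg L M) x * (nn u L x : ℝ) ^ k := by
  by_cases h : 1 ≤ Tn u (Dg L M) x
  · have h1 : ∑ c ∈ (CC k L M).filter (fun c => ¬ Function.Injective c),
        Tn u (bx (lo M a c) (hi M b c)) x ≤
        ∑ c ∈ CC k L M, Tn u (bx (lo M a c) (hi M b c)) x :=
      Finset.sum_le_sum_of_subset_of_nonneg (Finset.filter_subset _ _)
        fun c _ _ => Tn_nonneg _ _ _
    rw [← Tn_cells hu hM ha hb x] at h1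
    refine h1.trans ((Tn_le hu (bx_bd ha hb) x).trans ?_)
    exact le_mul_of_one_le_left (by positivity) h
  · have h1 : ∑ c ∈ (CC k L M).filter (fun c => ¬ Function.Injective c),
        Tn u (bx (lo M a c) (hi M b c)) x = 0 := by
      refine Finset.sum_eq_zero fun c hc => ?_
      rw [Finset.mem_filter, Function.Injective] at hc
      obtain ⟨-, hc2⟩ := hc
      push Not at hc2
      obtain ⟨i, j, hij, hne⟩ := hc2
      refine Tn_zero u _ x fun n h1 h2 h3 => h ?_
      refine one_le_Tn hu (Dg_bd L M) (n := ![n i, n j]) ?_ ?_ ?_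
      · intro p q hpq
        fin_cases p <;> fin_cases q
        · rfl
        · exact absurd (h1 hpq) hne
        · exact absurd (h1 hpq.symm) hne
        · rfl
      · intro p
        fin_cases p
        · exact h2 i
        · exact h2 j
      · rw [← cell_eq hM] at h3
        have h4 := fun t => bx_bd ha hb _ h3.1 t
        have h5 := congrFun h3.2 i
        have h6 := congrFun h3.2 j
        refine ⟨?_, ?_⟩
        · intro p
          have h7 := fun t => h3.1 t
          fin_cases p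
          · exact ⟨(ha i).trans_lt (h3.1 i).1, (h3.1 i).2.trans (hb i)⟩
          · exact ⟨(ha j).trans_lt (h3.1 j).1, (h3.1 j).2.trans (hb j)⟩
        · have h8 : ⌈(M : ℝ) * (u (n i) - x)⌉ = c i := h5
          have h9 : ⌈(M : ℝ) * (u (n j) - x)⌉ = c j := h6
          have h10 : ⌈(M : ℝ) * (u (n i) - x)⌉ = ⌈(M : ℝ) * (u (n j) - x)⌉ := by
            rw [h8, h9, hij]
          exact h10
    rw [h1]
    exact mul_nonneg (Tn_nonneg _ _ _) (by positivity)

lemma Dg_cells {L M : ℕ} (hM : 1 ≤ M) (x : ℝ) : Tn u (Dg L M) x =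
    ∑ e ∈ SS L M, Tn u (bx (fun _ : Fin 2 => ((e : ℝ) - 1) / M) (fun _ => (e : ℝ) / M)) x := by
  have hM' : (0 : ℝ) < M := by exact_mod_cast hM
  rw [Tn_part hu (Dg_bd L M) (fun y => ⌈(M : ℝ) * y 0⌉) (SS L M)
    (fun y hy => ce_mem hM (hy.1 0).1 (hy.1 0).2) x]
  refine Finset.sum_congr rfl fun e he => ?_
  congr 1
  ext y
  unfold SS at he
  rw [Finset.mem_Ioc] at he
  have he1 : -((L : ℝ) * M) ≤ (e : ℝ) - 1 := by
    have : -((L * M : ℕ) : ℤ) + 1 ≤ e := he.1
    have h2 : ((-((L * M : ℕ) : ℤ) + 1 : ℤ) : ℝ) ≤ (e : ℝ) := by exact_mod_cast this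
    push_cast at h2
    linarith
  have he2 : (e : ℝ) ≤ (L : ℝ) * M := by
    have h2 : ((e : ℤ) : ℝ) ≤ (((L * M : ℕ) : ℤ) : ℝ) := by exact_mod_cast he.2
    push_cast at h2
    exact h2
  simp only [Dg, Set.mem_inter_iff, Set.mem_ofPred_eq]
  constructor
  · rintro ⟨⟨-, h2⟩, h3⟩ i
    fin_cases i
    · exact (ceil_iff hM (y 0) e).1 h3
    · exact (ceil_iff hM (y 1) e).1 (h2.symm.trans h3)
  · intro h
    have h0 := (ceil_iff hM (y 0) e).2 (h 0)
    have h1 := (ceil_iff hM (y 1) e).2 (h 1)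
    refine ⟨⟨fun i => ?_, h0.trans h1.symm⟩, h0⟩
    have h2 := h i
    refine ⟨lt_of_le_of_lt ?_ h2.1, h2.2.trans ?_⟩
    · rw [le_div_iff₀ hM']
      linarith
    · rw [div_le_iff₀ hM']
      exact he2

lemma Dg_int {L M : ℕ} (hM : 1 ≤ M) (c d : ℝ) :
    IntervalIntegrable (Tn u (Dg L M)) volume c d := by
  have h : Tn u (Dg L M) = ∑ e ∈ SS L M, fun x =>
      Tn u (bx (fun _ : Fin 2 => ((e : ℝ) - 1) / M) (fun _ => (e : ℝ) / M)) x := by
    funext x
    rw [Finset.sum_apply]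
    exact Dg_cells hu hM x
  rw [h]
  refine IntervalIntegrable.sum _ fun e _ => ?_
  exact Tn_int hu (L := max |((e : ℝ) - 1) / M| |(e : ℝ) / M|) (bx_bd
    (fun _ => (neg_le_neg (le_max_left _ _)).trans (neg_abs_le _))
    (fun _ => (le_abs_self _).trans (le_max_right _ _))) (bx_meas _ _) _ _

lemma Dg_mean {L M : ℕ} (hM : 1 ≤ M) (N : ℕ) : mean N (Tn u (Dg L M)) =
    ∑ e ∈ SS L M, corO u 2 N (fun _ => ((e : ℝ) - 1) / M) (fun _ => (e : ℝ) / M) := by
  simp only [corO_eq]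
  have h : Tn u (Dg L M) = fun x => ∑ e ∈ SS L M,
      Tn u (bx (fun _ : Fin 2 => ((e : ℝ) - 1) / M) (fun _ => (e : ℝ) / M)) x := by
    funext x
    exact Dg_cells hu hM x
  rw [h, mean_sum]
  intro e _
  exact Tn_int hu (L := max |((e : ℝ) - 1) / M| |(e : ℝ) / M|) (bx_bd
    (fun _ => (neg_le_neg (le_max_left _ _)).trans (neg_abs_le _))
    (fun _ => (le_abs_self _).trans (le_max_right _ _))) (bx_meas _ _) _ _

/-- pairs in the same cell are rare -/
lemma Dg_lim (hCO : S_CO) {L M : ℕ} (hM : 1 ≤ M) :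
    Tendsto (fun N : ℕ => mean N (Tn u (Dg L M)) -
      2 * L * (M * corO u 2 N (fun _ => 0) (fun _ => 1 / M))) atTop (𝓝 0) := by
  have h1 : ∀ e ∈ SS L M, Tendsto (fun N : ℕ =>
      corO u 2 N (fun _ => ((e : ℝ) - 1) / M) (fun _ => (e : ℝ) / M) -
        corO u 2 N (fun _ => 0) (fun _ => 1 / M)) atTop (𝓝 0) := by
    intro e _
    have h2 := corr_shift hu (k := 2) (fun _ => 0) (fun _ => 1 / M) (((e : ℝ) - 1) / M)
    refine h2.congr fun N => ?_
    rw [hCO u hu, hCO u hu]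
    have e1 : (0 : ℝ) + ((e : ℝ) - 1) / M = ((e : ℝ) - 1) / M := by ring
    have e2 : (1 : ℝ) / M + ((e : ℝ) - 1) / M = (e : ℝ) / M := by ring
    simp only [e1, e2]
  have h3 := tendsto_finsetSum (SS L M) h1
  rw [Finset.sum_const_zero] at h3
  refine h3.congr fun N => ?_
  rw [Finset.sum_sub_distrib, Finset.sum_const, SS_card, ← Dg_mean hu hM, nsmul_eq_mul]
  push_cast
  ring

/-- cells with distinct coordinates -/
lemma inj_lim (hCO : S_CO) {I : Type} {l : Filter I} {N : I → ℕ}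
    (h1 : ∀ (k : ℕ) (a b : Fin k → ℝ), Dis a b →
      Tendsto (fun j => corO u k (N j) a b) l
        (𝓝 (∫ x in Set.univ.pi fun i => Set.Ioc (a i) (b i), sdet x)))
    {k M : ℕ} (hM : 1 ≤ M) (a b : Fin k → ℝ) {c : Fin k → ℤ} (hc : Function.Injective c) :
    Tendsto (fun j => corO u k (N j) (lo M a c) (hi M b c)) l
      (𝓝 (∫ x in bx (lo M a c) (hi M b c), sdet x)) := by
  have hM' : (0 : ℝ) < M := by exact_mod_cast hM
  by_cases hd : ∀ i, lo M a c i < hi M b c i
  · set σ := Tuple.sort c with hσ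
    have hmono : StrictMono (c ∘ σ) :=
      (Tuple.monotone_sort c).strictMono_of_injective (hc.comp σ.injective)
    have hD : Dis (lo M a c ∘ σ) (hi M b c ∘ σ) := by
      refine ⟨fun i => hd (σ i), fun i j hij => ?_⟩
      have h2 : c (σ i) + 1 ≤ c (σ j) := hmono hij
      have h3 : (c (σ i) : ℝ) ≤ (c (σ j) : ℝ) - 1 := by
        have : ((c (σ i) + 1 : ℤ) : ℝ) ≤ (c (σ j) : ℝ) := by exact_mod_cast h2
        push_cast at this
        linarith
      exact (min_le_right _ _).trans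
        ((div_le_div_of_nonneg_right h3 hM'.le).trans (le_max_right _ _))
    have h4 := h1 k _ _ hD
    rw [bx_pi, int_bx_perm] at h4
    refine h4.congr fun j => ?_
    exact corO_perm hCO hu k (N j) _ _ σ
  · push Not at hd
    obtain ⟨i, hi'⟩ := hd
    have he : bx (lo M a c) (hi M b c) = ∅ := by
      ext y
      simp only [Set.mem_empty_iff_false, iff_false]
      intro hy
      exact absurd ((hy i).1.trans_le (hy i).2) (not_lt.2 hi')
    rw [he, setIntegral_empty]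
    refine tendsto_const_nhds.congr fun j => ?_
    rw [corO_eq, he]
    have : Tn u (∅ : Set (Fin k → ℝ)) = fun _ => 0 := by
      funext x
      exact Tn_zero u _ x fun n _ _ h => h
    rw [this]
    simp [mean]

end

/-- bounds of the ends -/
lemma exists_bound' {k : ℕ} (a b : Fin k → ℝ) :
    ∃ L : ℕ, (∀ i, -(L : ℝ) ≤ a i) ∧ ∀ i, b i ≤ L := by
  obtain ⟨A, hA⟩ := (Set.finite_range fun i => |a i|).bddAbove
  obtain ⟨B, hB⟩ := (Set.finite_range fun i => |b i|).bddAbove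
  obtain ⟨L, hL⟩ := exists_nat_ge (max A B)
  refine ⟨L, fun i => ?_, fun i => ?_⟩
  · have := hA ⟨i, rfl⟩
    simp only at this
    linarith [le_max_left A B, neg_abs_le (a i)]
  · have := hB ⟨i, rfl⟩
    simp only at this
    linarith [le_max_right A B, le_abs_self (b i)]

theorem t_ALLB : S_CO → S_ALLB := by
  classical
  intro hCO u hu hMB I l N hN h1 h2 k a b
  obtain ⟨L, ha, hb⟩ := exists_bound' a b
  obtain ⟨C, hC⟩ := hMB L
  have hC' : ∀ N : ℕ, 1 ≤ N → mean N (fun x => (4 : ℝ) ^ nn u L x) ≤ C := hC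
  obtain ⟨K, hK0, hK⟩ := noninj_bound k L
  rw [← int_bx]
  simp only [hCO u hu]
  rw [Metric.tendsto_nhds]
  intro ε hε
  -- constants
  obtain ⟨P, hP⟩ : ∃ P : ℝ, P = ((2 + 2 * k).factorial : ℝ) * (|C| + 1) := ⟨_, rfl⟩
  have hfac : (0 : ℝ) < (2 + 2 * k).factorial := by exact_mod_cast Nat.factorial_pos _
  have hP0 : 0 < P := by rw [hP]; positivity
  have hPC : ((2 + 2 * k).factorial : ℝ) * C ≤ P := by
    rw [hP]
    exact mul_le_mul_of_nonneg_left (by linarith [le_abs_self C]) hfac.le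
  obtain ⟨η, hη⟩ : ∃ η : ℝ, η = ε / (4 * P) := ⟨_, rfl⟩
  have hη0 : 0 < η := by rw [hη]; positivity
  have hηP : η * P = ε / 4 := by rw [hη]; field_simp
  obtain ⟨ε2, hε2⟩ : ∃ ε2 : ℝ, ε2 = η * ε / (4 * (2 * L + 1)) := ⟨_, rfl⟩
  have hε20 : 0 < ε2 := by rw [hε2]; positivity
  have hεη : (2 * L + 1) * ε2 / η = ε / 4 := by rw [hε2]; field_simp
  obtain ⟨M0, hM0⟩ := h2 ε2 hε20
  obtain ⟨M1, hM1⟩ := exists_nat_ge (4 * K / ε)
  obtain ⟨M, hMM0, hMM1, hM⟩ : ∃ M : ℕ, M0 ≤ M ∧ M1 ≤ M ∧ 1 ≤ M :=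
    ⟨max M0 (max M1 1), le_max_left _ _, (le_max_left _ _).trans (le_max_right _ _),
      (le_max_right _ _).trans (le_max_right _ _)⟩
  have hM' : (0 : ℝ) < M := by exact_mod_cast hM
  have hKM : K / M ≤ ε / 4 := by
    rw [div_le_iff₀ hM']
    have h3 : 4 * K / ε ≤ M := hM1.trans (by exact_mod_cast hMM1)
    rw [div_le_iff₀ hε] at h3
    linarith
  -- distinct cells
  have h3 : Tendsto (fun j => ∑ c ∈ (CC k L M).filter (fun c => Function.Injective c),
      corO u k (N j) (lo M a c) (hi M b c)) l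
      (𝓝 (∑ c ∈ (CC k L M).filter (fun c => Function.Injective c),
        ∫ x in bx (lo M a c) (hi M b c), sdet x)) :=
    tendsto_finsetSum _ fun c hc => inj_lim hu hCO h1 hM a b (Finset.mem_filter.1 hc).2
  rw [Metric.tendsto_nhds] at h3
  have h4 := h3 (ε / 4) (by linarith)
  -- pairs in the same cell
  have h5 := (Dg_lim hu hCO (L := L) hM).comp hN
  rw [Metric.tendsto_nhds] at h5
  have h6 := h5 ε2 hε20
  filter_upwards [h4, h6, hM0 M hMM0, hN.eventually_ge_atTop 1] with j g1 g2 g3 g4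
  rw [Real.dist_eq] at g1 g2 ⊢
  simp only [Function.comp, sub_zero] at g2
  rw [corO_split hu hM ha hb, int_split hM ha hb,
    ← Finset.sum_filter_add_sum_filter_not (CC k L M) (fun c => Function.Injective c)
      (fun c => corO u k (N j) (lo M a c) (hi M b c)),
    ← Finset.sum_filter_add_sum_filter_not (CC k L M) (fun c => Function.Injective c)
      (fun c => ∫ x in bx (lo M a c) (hi M b c), sdet x)]
  -- the remaining sums
  have g5 : 0 ≤ ∑ c ∈ (CC k L M).filter (fun c => ¬ Function.Injective c),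
      corO u k (N j) (lo M a c) (hi M b c) := by
    refine Finset.sum_nonneg fun c _ => ?_
    rw [corO_eq]
    exact mean_nonneg fun x => Tn_nonneg _ _ _
  have g6 : ∑ c ∈ (CC k L M).filter (fun c => ¬ Function.Injective c),
      corO u k (N j) (lo M a c) (hi M b c) ≤ ε / 4 := by
    have hint : ∀ c, IntervalIntegrable (Tn u (bx (lo M a c) (hi M b c))) volume 0 (N j) :=
      fun c => Tn_int hu (cell_bd hu ha hb c) (bx_meas _ _) _ _
    have e1 : ∑ c ∈ (CC k L M).filter (fun c => ¬ Function.Injective c),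
        corO u k (N j) (lo M a c) (hi M b c) = mean (N j) fun x =>
          ∑ c ∈ (CC k L M).filter (fun c => ¬ Function.Injective c),
            Tn u (bx (lo M a c) (hi M b c)) x := by
      rw [mean_sum _ _ fun c _ => hint c]
      exact Finset.sum_congr rfl fun c _ => corO_eq _ _ _ _ _
    rw [e1]
    have hfi : IntervalIntegrable (fun x =>
        ∑ c ∈ (CC k L M).filter (fun c => ¬ Function.Injective c),
          Tn u (bx (lo M a c) (hi M b c)) x) volume 0 (N j) := by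
      have e2 : (fun x => ∑ c ∈ (CC k L M).filter (fun c => ¬ Function.Injective c),
          Tn u (bx (lo M a c) (hi M b c)) x) =
          ∑ c ∈ (CC k L M).filter (fun c => ¬ Function.Injective c),
            fun x => Tn u (bx (lo M a c) (hi M b c)) x := by
        funext x
        rw [Finset.sum_apply]
      rw [e2]
      exact IntervalIntegrable.sum _ fun c _ => hint c
    have e3 := rare hu hC' k 2 1 zero_le_one _ (Tn u (Dg L M)) g4 hfi
      (Dg_int hu hM _ _) (fun x => Tn_nonneg _ _ _)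
      (fun x => by rw [one_mul]; exact Tn_le hu (Dg_bd L M) x)
      (fun x => non_le hu hM ha hb x) η hη0
    refine e3.trans ?_
    have e4 : mean (N j) (Tn u (Dg L M)) ≤ (2 * L + 1) * ε2 := by
      have e5 := (abs_lt.1 g2).2
      have e6 : 2 * (L : ℝ) * (M * corO u 2 (N j) (fun _ => 0) (fun _ => 1 / M)) ≤
          2 * L * ε2 := mul_le_mul_of_nonneg_left g3 (by positivity)
      linarith
    have e7 : mean (N j) (Tn u (Dg L M)) / η ≤ ε / 4 := by
      rw [← hεη]
      exact div_le_div_of_nonneg_right e4 hη0.le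
    have e8 : η * (1 * (((2 + 2 * k).factorial : ℝ) * C)) ≤ ε / 4 := by
      rw [← hηP, one_mul]
      exact mul_le_mul_of_nonneg_left hPC hη0.le
    linarith
  have g7 : 0 ≤ ∑ c ∈ (CC k L M).filter (fun c => ¬ Function.Injective c),
      ∫ x in bx (lo M a c) (hi M b c), sdet x :=
    Finset.sum_nonneg fun c _ => (int_cell k hM a b c).1
  have g8 : ∑ c ∈ (CC k L M).filter (fun c => ¬ Function.Injective c),
      ∫ x in bx (lo M a c) (hi M b c), sdet x ≤ ε / 4 := by
    refine (Finset.sum_le_sum fun c _ => (int_cell k hM a b c).2).trans ?_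
    rw [Finset.sum_const, nsmul_eq_mul]
    exact (hK M hM).trans hKM
  rw [abs_lt] at g1 ⊢
  constructor <;> linarith [g1.1, g1.2]

end Pool.Agent.Y51.SR4
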