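import Pool.Agent.Y51.SR4.Cnt

/-!
Project SR (helper748), part 4: limits along subsequences (job SR4-COMP).
-/

open Finset Filter Topology MeasureTheory

set_option autoImplicit false

namespace Pool.Agent.Y51.SR4

open Pool.Agent.Y748.SR Pool.Agent.Y51.SR

/-- the number of points in a closed interval -/
noncomputable def ci (u : ℕ → ℝ) (c d x : ℝ) : ℝ :=
  Tn u (Set.Icc (fun _ : Fin 1 => c) (fun _ => d)) x

lemma ci_bd {c d : ℝ} {L : ℝ} (hc : |c| ≤ L) (hd : |d| ≤ L) :
    Bd L (Set.Icc (fun _ : Fin 1 => c) (fun _ => d)) := fun y hy i => by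
  have h1 := hy.1 i
  have h2 := hy.2 i
  simp only at h1 h2
  exact abs_le.2 ⟨by linarith [(abs_le.1 hc).1], by linarith [(abs_le.1 hd).2]⟩

lemma abs_min_le {p q L : ℝ} (hp : |p| ≤ L) (hq : |q| ≤ L) : |min p q| ≤ L := by
  rcases min_choice p q with h | h <;> rw [h] <;> assumption

lemma abs_max_le {p q L : ℝ} (hp : |p| ≤ L) (hq : |q| ≤ L) : |max p q| ≤ L := by
  rcases max_choice p q with h | h <;> rw [h] <;> assumption

/-- the number of points near the ends of the intervals -/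
noncomputable def Dd (u : ℕ → ℝ) {k : ℕ} (a b a' b' : Fin k → ℝ) (x : ℝ) : ℝ :=
  ∑ i, (ci u (min (a i) (a' i)) (max (a i) (a' i)) x + ci u (min (b i) (b' i)) (max (b i) (b' i)) x)

section

variable {u : ℕ → ℝ} (hu : Sq u) {k L : ℕ} {a b a' b' : Fin k → ℝ} (ha : ∀ i, |a i| ≤ L)
  (hb : ∀ i, |b i| ≤ L) (ha' : ∀ i, |a' i| ≤ L) (hb' : ∀ i, |b' i| ≤ L)

include hu

lemma one_le_ci {c d : ℝ} (hc : |c| ≤ L) (hd : |d| ≤ L) {x : ℝ} {n : ℕ} (h1 : 1 ≤ n)
    (h2 : u n - x ∈ Set.Icc c d) : 1 ≤ ci u c d x :=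
  one_le_Tn hu (ci_bd hc hd) (n := fun _ => n) (Function.injective_of_subsingleton _)
    (fun _ => h1) ⟨fun _ => h2.1, fun _ => h2.2⟩

include ha hb ha' hb'

lemma close (x : ℝ) : |Tn u (bx a b) x - Tn u (bx a' b') x| ≤
    Dd u a b a' b' x * (nn u L x : ℝ) ^ k := by
  have hB : Bd L (bx a b) := bx_bd (fun i => (abs_le.1 (ha i)).1) fun i => (abs_le.1 (hb i)).2
  have hB' : Bd L (bx a' b') :=
    bx_bd (fun i => (abs_le.1 (ha' i)).1) fun i => (abs_le.1 (hb' i)).2
  have t1 := Tn_le hu hB x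
  have t2 := Tn_le hu hB' x
  have t3 := Tn_nonneg u (bx a b) x
  have t4 := Tn_nonneg u (bx a' b') x
  have hnn : ∀ i : Fin k, 0 ≤ ci u (min (a i) (a' i)) (max (a i) (a' i)) x +
      ci u (min (b i) (b' i)) (max (b i) (b' i)) x := fun i =>
    add_nonneg (Tn_nonneg _ _ _) (Tn_nonneg _ _ _)
  by_cases h : ∃ (i : Fin k) (n : ℕ), 1 ≤ n ∧
      (u n - x ∈ Set.Icc (min (a i) (a' i)) (max (a i) (a' i)) ∨
        u n - x ∈ Set.Icc (min (b i) (b' i)) (max (b i) (b' i)))
  · obtain ⟨i, n, h1, h2⟩ := h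
    have h3 : 1 ≤ ci u (min (a i) (a' i)) (max (a i) (a' i)) x +
        ci u (min (b i) (b' i)) (max (b i) (b' i)) x := by
      rcases h2 with h2 | h2
      · have := one_le_ci hu (abs_min_le (ha i) (ha' i)) (abs_max_le (ha i) (ha' i)) h1 h2
        have h4 : 0 ≤ ci u (min (b i) (b' i)) (max (b i) (b' i)) x := Tn_nonneg _ _ _
        linarith
      · have := one_le_ci hu (abs_min_le (hb i) (hb' i)) (abs_max_le (hb i) (hb' i)) h1 h2
        have h4 : 0 ≤ ci u (min (a i) (a' i)) (max (a i) (a' i)) x := Tn_nonneg _ _ _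
        linarith
    have h5 : 1 ≤ Dd u a b a' b' x := h3.trans
      (Finset.single_le_sum (f := fun i => ci u (min (a i) (a' i)) (max (a i) (a' i)) x +
        ci u (min (b i) (b' i)) (max (b i) (b' i)) x) (fun i _ => hnn i) (Finset.mem_univ i))
    have h6 : (nn u L x : ℝ) ^ k ≤ Dd u a b a' b' x * (nn u L x : ℝ) ^ k :=
      le_mul_of_one_le_left (by positivity) h5
    rw [abs_le]
    constructor <;> linarith
  · push Not at h
    have he : Tn u (bx a b) x = Tn u (bx a' b') x := by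
      unfold Tn
      congr 2
      ext n
      simp only [Set.mem_ofPred_eq, bx]
      refine and_congr_right fun _ => and_congr_right fun hn => forall_congr' fun i => ?_
      obtain ⟨g1, g2⟩ := h i (n i) (hn i)
      rw [Set.mem_Icc, not_and, not_le] at g1 g2
      rw [Set.mem_Ioc, Set.mem_Ioc]
      constructor
      · rintro ⟨e1, e2⟩
        have f1 := g1 ((min_le_left _ _).trans e1.le)
        refine ⟨(le_max_right _ _).trans_lt f1, ?_⟩
        by_contra hcon
        push Not at hcon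
        have f2 := g2 ((min_le_right _ _).trans hcon.le)
        exact absurd e2 (not_le.2 ((le_max_left _ _).trans_lt f2))
      · rintro ⟨e1, e2⟩
        have f1 := g1 ((min_le_right _ _).trans e1.le)
        refine ⟨(le_max_left _ _).trans_lt f1, ?_⟩
        by_contra hcon
        push Not at hcon
        have f2 := g2 ((min_le_left _ _).trans hcon.le)
        exact absurd e2 (not_le.2 ((le_max_right _ _).trans_lt f2))
    rw [he, sub_self, abs_zero]
    exact mul_nonneg (Finset.sum_nonneg fun i _ => hnn i) (by positivity)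

lemma Dd_int (c d : ℝ) : IntervalIntegrable (Dd u a b a' b') volume c d := by
  have h : (Dd u a b a' b') = ∑ i, fun x => (ci u (min (a i) (a' i)) (max (a i) (a' i)) x +
      ci u (min (b i) (b' i)) (max (b i) (b' i)) x) := by
    funext x
    rw [Finset.sum_apply]
    rfl
  rw [h]
  refine IntervalIntegrable.sum _ fun i _ => ?_
  exact (Tn_int hu (ci_bd (abs_min_le (ha i) (ha' i)) (abs_max_le (ha i) (ha' i)))
    measurableSet_Icc c d).add
    (Tn_int hu (ci_bd (abs_min_le (hb i) (hb' i)) (abs_max_le (hb i) (hb' i)))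
      measurableSet_Icc c d)

lemma Dd_mean : Tendsto (fun N : ℕ => mean N (Dd u a b a' b')) atTop
    (𝓝 (∑ i, (|a i - a' i| + |b i - b' i|))) := by
  have h1 : ∀ N : ℕ, mean N (Dd u a b a' b') =
      ∑ i, (corr u 1 N (fun _ => min (a i) (a' i)) (fun _ => max (a i) (a' i)) +
        corr u 1 N (fun _ => min (b i) (b' i)) (fun _ => max (b i) (b' i))) := by
    intro N
    have hi1 : ∀ i, IntervalIntegrable (ci u (min (a i) (a' i)) (max (a i) (a' i))) volume
        (0 : ℝ) N := fun i =>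
      Tn_int hu (ci_bd (abs_min_le (ha i) (ha' i)) (abs_max_le (ha i) (ha' i)))
        measurableSet_Icc _ _
    have hi2 : ∀ i, IntervalIntegrable (ci u (min (b i) (b' i)) (max (b i) (b' i))) volume
        (0 : ℝ) N := fun i =>
      Tn_int hu (ci_bd (abs_min_le (hb i) (hb' i)) (abs_max_le (hb i) (hb' i)))
        measurableSet_Icc _ _
    unfold Dd
    rw [mean_sum univ (fun i x => ci u (min (a i) (a' i)) (max (a i) (a' i)) x +
      ci u (min (b i) (b' i)) (max (b i) (b' i)) x) (fun i _ => (hi1 i).add (hi2 i))]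
    refine Finset.sum_congr rfl fun i _ => ?_
    rw [mean_add (hi1 i) (hi2 i), corr_eq', corr_eq']
    rfl
  simp only [h1]
  refine tendsto_finsetSum _ fun i _ => ?_
  have h2 : ∀ p q : ℝ, max p q - min p q = |p - q| := fun p q => max_sub_min_eq_abs' p q
  have h3 := onep_nat hu (min_le_max (a := a i) (b := a' i))
  have h4 := onep_nat hu (min_le_max (a := b i) (b := b' i))
  rw [h2] at h3 h4
  exact h3.add h4

end

/-- uniform continuity in the ends of the intervals -/
lemma approx {u : ℕ → ℝ} (hu : Sq u) (hMB : MB u) (k L : ℕ) (ε : ℝ) (hε : 0 < ε) :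
    ∃ δ : ℝ, 0 < δ ∧ ∀ a b a' b' : Fin k → ℝ, (∀ i, |a i| ≤ L) → (∀ i, |b i| ≤ L) →
      (∀ i, |a' i| ≤ L) → (∀ i, |b' i| ≤ L) → (∀ i, |a i - a' i| ≤ δ) →
      (∀ i, |b i - b' i| ≤ δ) → ∀ᶠ N : ℕ in atTop,
        |corO u k N a b - corO u k N a' b'| ≤ ε := by
  obtain ⟨C, hC⟩ := hMB L
  have hC' : ∀ N : ℕ, 1 ≤ N → mean N (fun x => (4 : ℝ) ^ nn u L x) ≤ C := hC
  set K : ℝ := |2 * k * ((1 + 2 * k).factorial * C)| with hK
  have hK0 : 0 ≤ K := abs_nonneg _
  set η : ℝ := ε / (K + 1) with hη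
  have hη0 : 0 < η := by positivity
  have hηK : η * K ≤ ε := by
    rw [hη, div_mul_eq_mul_div, div_le_iff₀ (by positivity)]
    nlinarith
  refine ⟨ε * η / (4 * k + 4), by positivity, ?_⟩
  intro a b a' b' ha hb ha' hb' hda hdb
  have hlim := Dd_mean hu ha hb ha' hb'
  have hsum : ∑ i, (|a i - a' i| + |b i - b' i|) < ε * η := by
    have h1 : ∑ i, (|a i - a' i| + |b i - b' i|) ≤
        ∑ _i : Fin k, 2 * (ε * η / (4 * k + 4)) :=
      Finset.sum_le_sum fun i _ => by linarith [hda i, hdb i]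
    rw [Finset.sum_const, Finset.card_univ, Fintype.card_fin, nsmul_eq_mul] at h1
    refine lt_of_le_of_lt h1 ?_
    have h2 : (k : ℝ) * (2 * (ε * η / (4 * k + 4))) = ε * η * (2 * k / (4 * k + 4)) := by ring
    have h3 : (2 * (k : ℝ) / (4 * k + 4)) < 1 := by
      rw [div_lt_one (by positivity)]
      have : (0 : ℝ) ≤ k := Nat.cast_nonneg k
      linarith
    rw [h2]
    have h4 : 0 < ε * η := by positivity
    nlinarith
  filter_upwards [hlim.eventually_lt_const hsum, eventually_ge_atTop 1] with N hN hN1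
  have hB : Bd L (bx a b) := bx_bd (fun i => (abs_le.1 (ha i)).1) fun i => (abs_le.1 (hb i)).2
  have hB' : Bd L (bx a' b') :=
    bx_bd (fun i => (abs_le.1 (ha' i)).1) fun i => (abs_le.1 (hb' i)).2
  have i1 := Tn_int hu hB (bx_meas a b) 0 (N : ℝ)
  have i2 := Tn_int hu hB' (bx_meas a' b') 0 (N : ℝ)
  have hDn : ∀ x, Dd u a b a' b' x ≤ 2 * k * (nn u L x : ℝ) ^ 1 := by
    intro x
    have h1 : Dd u a b a' b' x ≤ ∑ _i : Fin k, 2 * (nn u L x : ℝ) ^ 1 := by
      refine Finset.sum_le_sum fun i _ => ?_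
      have h2 : ci u (min (a i) (a' i)) (max (a i) (a' i)) x ≤ (nn u L x : ℝ) ^ 1 :=
        Tn_le hu (ci_bd (abs_min_le (ha i) (ha' i)) (abs_max_le (ha i) (ha' i))) x
      have h3 : ci u (min (b i) (b' i)) (max (b i) (b' i)) x ≤ (nn u L x : ℝ) ^ 1 :=
        Tn_le hu (ci_bd (abs_min_le (hb i) (hb' i)) (abs_max_le (hb i) (hb' i))) x
      linarith
    rw [Finset.sum_const, Finset.card_univ, Fintype.card_fin, nsmul_eq_mul] at h1
    linarith
  have hD0 : ∀ x, 0 ≤ Dd u a b a' b' x := fun x =>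
    Finset.sum_nonneg fun i _ => add_nonneg (Tn_nonneg _ _ _) (Tn_nonneg _ _ _)
  have h1 := rare hu hC' k 1 (2 * k) (by positivity)
    (fun x => |Tn u (bx a b) x - Tn u (bx a' b') x|) (Dd u a b a' b') hN1 (i1.sub i2).abs
    (Dd_int hu ha hb ha' hb' _ _) hD0 hDn (close hu ha hb ha' hb') η hη0
  have h2 : |corO u k N a b - corO u k N a' b'| ≤
      mean N (fun x => |Tn u (bx a b) x - Tn u (bx a' b') x|) := by
    rw [corO_eq, corO_eq, ← mean_sub i1 i2]
    unfold mean
    rw [abs_mul, abs_of_nonneg (by positivity : (0 : ℝ) ≤ 1 / N)]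
    exact mul_le_mul_of_nonneg_left
      (intervalIntegral.abs_integral_le_integral_abs (Nat.cast_nonneg N)) (by positivity)
  have h3 : mean N (Dd u a b a' b') / η ≤ ε := by
    rw [div_le_iff₀ hη0]
    exact hN.le
  have h4 : η * (2 * k * ((1 + 2 * k).factorial * C)) ≤ ε :=
    (mul_le_mul_of_nonneg_left (le_abs_self _) hη0.le).trans hηK
  linarith

lemma exists_bound {k : ℕ} (a b : Fin k → ℝ) : ∃ L : ℕ, (∀ i, |a i| + 1 ≤ L) ∧ ∀ i, |b i| + 1 ≤ L := by
  obtain ⟨A, hA⟩ := (Set.finite_range fun i => |a i|).bddAbove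
  obtain ⟨B, hB⟩ := (Set.finite_range fun i => |b i|).bddAbove
  obtain ⟨L, hL⟩ := exists_nat_ge (max A B + 1)
  refine ⟨L, fun i => ?_, fun i => ?_⟩
  · have := hA ⟨i, rfl⟩
    simp only at this
    linarith [le_max_left A B]
  · have := hB ⟨i, rfl⟩
    simp only at this
    linarith [le_max_right A B]

theorem t_COMP : S_COMP := by
  intro u hu hMB N hN
  -- bounds
  have hbd : ∀ (k : ℕ) (a b : Fin k → ℝ), ∃ C : ℝ, ∀ M : ℕ, corO u k M a b ∈ Set.Icc 0 C := by
    intro k a b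
    obtain ⟨L, ha, hb⟩ := exists_bound a b
    obtain ⟨C, hC⟩ := hMB L
    have hB : Bd L (bx a b) := bx_bd (fun i => by linarith [neg_abs_le (a i), ha i])
      fun i => by linarith [le_abs_self (b i), hb i]
    refine ⟨|k.factorial * C|, fun M => ?_⟩
    rw [corO_eq]
    refine ⟨mean_nonneg fun x => Tn_nonneg _ _ _, ?_⟩
    rcases Nat.eq_zero_or_pos M with rfl | hM
    · simp only [mean, Nat.cast_zero, div_zero, zero_mul]
      exact abs_nonneg _
    · have h1 := mean_mono (Tn_int hu hB (bx_meas a b) 0 (M : ℝ))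
        (nn_int hu L (fun n => (n : ℝ) ^ k) 0 M) (Tn_le hu hB)
      exact (h1.trans (moment hu hC k hM)).trans (le_abs_self _)
  -- rational ends
  let ι : Type := Σ k : ℕ, (Fin k → ℚ) × (Fin k → ℚ)
  let X : ℕ → ι → ℝ := fun j i =>
    corO u i.1 (N j) (fun t => (i.2.1 t : ℝ)) (fun t => (i.2.2 t : ℝ))
  have hbd' : ∀ i : ι, ∃ C : ℝ, ∀ M : ℕ,
      corO u i.1 M (fun t => (i.2.1 t : ℝ)) (fun t => (i.2.2 t : ℝ)) ∈ Set.Icc 0 C :=
    fun i => hbd _ _ _
  choose C hC using hbd'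
  have hcomp : IsCompact (Set.univ.pi fun i : ι => Set.Icc 0 (C i)) :=
    isCompact_univ_pi fun i => isCompact_Icc
  obtain ⟨y, -, φ, hφ, hy⟩ := hcomp.tendsto_subseq (x := X) (fun j i _ => hC i (N j))
  have hN' : Tendsto (fun j => N (φ j)) atTop atTop := hN.comp hφ.tendsto_atTop
  -- all ends
  have hlim : ∀ (k : ℕ) (a b : Fin k → ℝ), ∃ m : ℝ,
      Tendsto (fun j => corO u k (N (φ j)) a b) atTop (𝓝 m) := by
    intro k a b
    apply cauchySeq_tendsto_of_complete
    rw [Metric.cauchySeq_iff]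
    intro ε hε
    obtain ⟨L, ha, hb⟩ := exists_bound a b
    obtain ⟨δ, hδ, hap⟩ := approx hu hMB k L (ε / 4) (by linarith)
    set δ' := min δ 1 with hδ'
    have hδ'0 : 0 < δ' := lt_min hδ one_pos
    have hra : ∀ i, ∃ q : ℚ, a i < q ∧ (q : ℝ) < a i + δ' := fun i =>
      exists_rat_btwn (by linarith)
    have hrb : ∀ i, ∃ q : ℚ, b i < q ∧ (q : ℝ) < b i + δ' := fun i =>
      exists_rat_btwn (by linarith)
    choose qa hqa1 hqa2 using hra
    choose qb hqb1 hqb2 using hrb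
    have d1 : δ' ≤ δ := min_le_left _ _
    have d2 : δ' ≤ 1 := min_le_right _ _
    have h1 := hap a b (fun i => qa i) (fun i => qb i) (fun i => by linarith [ha i])
      (fun i => by linarith [hb i])
      (fun i => by
        have := abs_le.1 (le_refl |a i|)
        rw [abs_le]
        constructor <;> linarith [hqa1 i, hqa2 i, ha i])
      (fun i => by
        have := abs_le.1 (le_refl |b i|)
        rw [abs_le]
        constructor <;> linarith [hqb1 i, hqb2 i, hb i])
      (fun i => by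
        rw [abs_le]
        constructor <;> linarith [hqa1 i, hqa2 i])
      (fun i => by
        rw [abs_le]
        constructor <;> linarith [hqb1 i, hqb2 i])
    have h2 := hN'.eventually h1
    have h3 : Tendsto (fun j => corO u k (N (φ j)) (fun t => (qa t : ℝ)) (fun t => (qb t : ℝ)))
        atTop (𝓝 (y ⟨k, qa, qb⟩)) := (tendsto_pi_nhds.1 hy) ⟨k, qa, qb⟩
    have h4 := (Metric.tendsto_nhds.1 h3) (ε / 4) (by linarith)
    obtain ⟨j₀, hj₀⟩ := (h2.and h4).exists_forall_of_atTop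
    refine ⟨j₀, fun p hp q hq => ?_⟩
    obtain ⟨e1, e2⟩ := hj₀ p hp
    obtain ⟨e3, e4⟩ := hj₀ q hq
    rw [Real.dist_eq] at e2 e4 ⊢
    rw [abs_le] at e1 e3
    rw [abs_lt] at e2 e4 ⊢
    constructor <;> linarith
  choose m hm using hlim
  exact ⟨φ, hφ, m, ⟨hN', fun k a b _ => hm k a b⟩⟩

end Pool.Agent.Y51.SR4
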