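import Pool.Agent.Y748.SR.Stm7
import Pool.Agent.Y51.SR.Onep

/-!
Project SR (helper748), part 4: means of numbers of tuples of points; common part of the jobs COMP
and ALLB.
-/

open Finset Filter Topology MeasureTheory

set_option autoImplicit false
set_option linter.unusedSectionVars false

namespace Pool.Agent.Y51.SR4

open Pool.Agent.Y748.SR Pool.Agent.Y51.SR

/-- the number of the tuples of distinct indices whose positions seen from `x` are in `A` -/
noncomputable def Tn (u : ℕ → ℝ) {k : ℕ} (A : Set (Fin k → ℝ)) (x : ℝ) : ℝ :=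
  ({n : Fin k → ℕ | Function.Injective n ∧ (∀ i, 1 ≤ n i) ∧
    (fun i => u (n i) - x) ∈ A}.ncard : ℝ)

/-- the mean over `[0, N]` -/
noncomputable def mean (N : ℕ) (f : ℝ → ℝ) : ℝ := (1 / N : ℝ) * ∫ x in (0 : ℝ)..N, f x

/-- half-open boxes -/
def bx {k : ℕ} (a b : Fin k → ℝ) : Set (Fin k → ℝ) := {y | ∀ i, y i ∈ Set.Ioc (a i) (b i)}

/-- bounded sets -/
def Bd {k : ℕ} (L : ℝ) (A : Set (Fin k → ℝ)) : Prop := ∀ y ∈ A, ∀ i, |y i| ≤ L

/-- the number of points at distance at most `L` -/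
noncomputable def nn (u : ℕ → ℝ) (L : ℕ) (x : ℝ) : ℕ :=
  {n : ℕ | 1 ≤ n ∧ u n - x ∈ Set.Icc (-(L : ℝ)) L}.ncard

lemma corO_eq (u : ℕ → ℝ) (k N : ℕ) (a b : Fin k → ℝ) :
    corO u k N a b = mean N (Tn u (bx a b)) := by
  have h : ∀ x : ℝ, {n : Fin k → ℕ | Function.Injective n ∧
      ∀ i, 1 ≤ n i ∧ u (n i) - x ∈ Set.Ioc (a i) (b i)} =
      {n : Fin k → ℕ | Function.Injective n ∧ (∀ i, 1 ≤ n i) ∧
        (fun i => u (n i) - x) ∈ bx a b} := by
    intro x
    ext n
    simp only [Set.mem_ofPred_eq, bx, forall_and]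
  unfold corO mean Tn
  simp only [h]

lemma corr_eq' (u : ℕ → ℝ) (k N : ℕ) (a b : Fin k → ℝ) :
    corr u k N a b = mean N (Tn u (Set.Icc a b)) := by
  have h : ∀ x : ℝ, {n : Fin k → ℕ | Function.Injective n ∧
      ∀ i, 1 ≤ n i ∧ u (n i) - x ∈ Set.Icc (a i) (b i)} =
      {n : Fin k → ℕ | Function.Injective n ∧ (∀ i, 1 ≤ n i) ∧
        (fun i => u (n i) - x) ∈ Set.Icc a b} := by
    intro x
    ext n
    simp only [Set.mem_ofPred_eq, Set.mem_Icc, Pi.le_def, forall_and]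
  unfold corr mean Tn
  simp only [h]

lemma bx_meas {k : ℕ} (a b : Fin k → ℝ) : MeasurableSet (bx a b) := by
  have : bx a b = Set.univ.pi fun i => Set.Ioc (a i) (b i) := by
    ext y
    simp [bx]
  rw [this]
  exact MeasurableSet.univ_pi fun i => measurableSet_Ioc

lemma bx_bd {k : ℕ} {a b : Fin k → ℝ} {L : ℝ} (ha : ∀ i, -L ≤ a i) (hb : ∀ i, b i ≤ L) :
    Bd L (bx a b) := fun y hy i => by
  have h := hy i
  exact abs_le.2 ⟨(ha i).trans h.1.le, h.2.trans (hb i)⟩

lemma Tn_nonneg (u : ℕ → ℝ) {k : ℕ} (A : Set (Fin k → ℝ)) (x : ℝ) : 0 ≤ Tn u A x :=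
  Nat.cast_nonneg _

section

variable {u : ℕ → ℝ} (hu : Sq u)

include hu

/-- the indices of the points up to `T` -/
noncomputable def ix (T : ℝ) : Finset ℕ := (fin_le hu T).toFinset

omit hu in
lemma mem_ix (hu : Sq u) {T : ℝ} {n : ℕ} : n ∈ ix hu T ↔ 1 ≤ n ∧ u n ≤ T := by
  unfold ix
  rw [Set.Finite.mem_toFinset]
  exact Iff.rfl

open Classical in
/-- injective tuples -/
noncomputable def FF (k : ℕ) (T : ℝ) : Finset (Fin k → ℕ) :=
  (Fintype.piFinset fun _ => ix hu T).filter Function.Injective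

open Classical in
lemma Tn_sum {k : ℕ} {A : Set (Fin k → ℝ)} {L T x : ℝ} (hA : Bd L A) (hx : x ≤ T) :
    Tn u A x = ∑ n ∈ FF hu k (T + L), if (fun i => u (n i) - x) ∈ A then (1 : ℝ) else 0 := by
  have e : {n : Fin k → ℕ | Function.Injective n ∧ (∀ i, 1 ≤ n i) ∧
      (fun i => u (n i) - x) ∈ A} =
      (((FF hu k (T + L)).filter (fun n => (fun i => u (n i) - x) ∈ A) :
        Finset (Fin k → ℕ)) : Set (Fin k → ℕ)) := by
    ext n
    simp only [Set.mem_ofPred_eq, Finset.coe_filter, FF, Finset.mem_filter, Fintype.mem_piFinset,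
      mem_ix]
    constructor
    · rintro ⟨h1, h2, h3⟩
      refine ⟨⟨fun i => ⟨h2 i, ?_⟩, h1⟩, h3⟩
      have h4 := (abs_le.1 (hA _ h3 i)).2
      linarith
    · rintro ⟨⟨h1, h2⟩, h3⟩
      exact ⟨h2, fun i => (h1 i).1, h3⟩
  unfold Tn
  rw [e, Set.ncard_coe_finset, Finset.card_filter]
  push_cast
  rfl

lemma Tn_int {k : ℕ} {A : Set (Fin k → ℝ)} {L : ℝ} (hA : Bd L A) (hm : MeasurableSet A)
    (c d : ℝ) : IntervalIntegrable (Tn u A) volume c d := by
  classical
  rw [intervalIntegrable_iff]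
  have h1 : IntegrableOn (fun x => ∑ n ∈ FF hu k (max c d + L),
      (if (fun i => u (n i) - x) ∈ A then (1 : ℝ) else 0)) (Set.uIoc c d) := by
    refine integrable_finsetSum _ fun n _ => ?_
    have hmeas : MeasurableSet {x : ℝ | (fun i => u (n i) - x) ∈ A} := by
      have : Measurable fun x : ℝ => (fun i => u (n i) - x : Fin k → ℝ) :=
        measurable_pi_lambda _ fun i => measurable_const.sub measurable_id
      exact this hm
    have hfin : IsFiniteMeasure (volume.restrict (Set.uIoc c d)) := by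
      refine ⟨?_⟩
      rw [Measure.restrict_apply_univ, Set.uIoc]
      exact measure_Ioc_lt_top
    have h2 : Integrable (({x : ℝ | (fun i => u (n i) - x) ∈ A}).indicator
        (fun _ => (1 : ℝ))) (volume.restrict (Set.uIoc c d)) :=
      (integrable_const (1 : ℝ)).indicator hmeas
    refine h2.congr (Filter.Eventually.of_forall fun x => ?_)
    simp only [Set.indicator_apply, Set.mem_ofPred_eq]
  refine h1.congr_fun (fun x hx => ?_) measurableSet_uIoc
  have hx' : x ≤ max c d := (Set.mem_Ioc.1 hx).2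
  exact (Tn_sum hu hA hx').symm

lemma Tn_mono {k : ℕ} {A B : Set (Fin k → ℝ)} {L : ℝ} (hB : Bd L B) (h : A ⊆ B) (x : ℝ) :
    Tn u A x ≤ Tn u B x := by
  classical
  rw [Tn_sum hu hB (le_refl x), Tn_sum hu (fun y hy => hB y (h hy)) (le_refl x)]
  refine Finset.sum_le_sum fun n _ => ?_
  by_cases hn : (fun i => u (n i) - x) ∈ A
  · rw [if_pos hn, if_pos (h hn)]
  · rw [if_neg hn]
    split_ifs <;> norm_num

/-- partition by the values of a function -/
lemma Tn_part {k : ℕ} {A : Set (Fin k → ℝ)} {L : ℝ} (hA : Bd L A) {ι : Type} [DecidableEq ι]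
    (κ : (Fin k → ℝ) → ι) (F : Finset ι) (hF : ∀ y ∈ A, κ y ∈ F) (x : ℝ) :
    Tn u A x = ∑ c ∈ F, Tn u (A ∩ {y | κ y = c}) x := by
  classical
  have h1 : ∀ c ∈ F, Tn u (A ∩ {y | κ y = c}) x =
      ∑ n ∈ FF hu k (x + L), if (fun i => u (n i) - x) ∈ A ∩ {y | κ y = c} then (1 : ℝ) else 0 :=
    fun c _ => by
      have h0 := Tn_sum hu (A := A ∩ {y | κ y = c}) (fun y hy => hA y hy.1) (le_refl x)
      convert h0
  rw [Tn_sum hu hA (le_refl x), Finset.sum_congr rfl h1, Finset.sum_comm]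
  refine Finset.sum_congr rfl fun n _ => ?_
  by_cases hn : (fun i => u (n i) - x) ∈ A
  · rw [if_pos hn]
    have h2 := hF _ hn
    rw [Finset.sum_eq_single_of_mem (κ fun i => u (n i) - x) h2]
    · rw [if_pos ⟨hn, rfl⟩]
    · intro c _ hc
      rw [if_neg]
      rintro ⟨-, h3⟩
      exact hc h3.symm
  · rw [if_neg hn]
    refine (Finset.sum_eq_zero fun c _ => ?_).symm
    rw [if_neg]
    rintro ⟨h3, -⟩
    exact hn h3

lemma Tn_split {k : ℕ} {A : Set (Fin k → ℝ)} {L : ℝ} (hA : Bd L A) (P : Set (Fin k → ℝ))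
    (x : ℝ) : Tn u A x = Tn u (A ∩ P) x + Tn u (A \ P) x := by
  classical
  rw [Tn_sum hu hA (le_refl x), Tn_sum hu (A := A ∩ P) (fun y hy => hA y hy.1) (le_refl x),
    Tn_sum hu (A := A \ P) (fun y hy => hA y hy.1) (le_refl x), ← Finset.sum_add_distrib]
  refine Finset.sum_congr rfl fun n _ => ?_
  by_cases h1 : (fun i => u (n i) - x) ∈ A
  · by_cases h2 : (fun i => u (n i) - x) ∈ P
    · rw [if_pos h1, if_pos ⟨h1, h2⟩, if_neg (fun h => h.2 h2), add_zero]
    · rw [if_pos h1, if_neg (fun h => h2 h.2), if_pos ⟨h1, h2⟩, zero_add]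
  · rw [if_neg h1, if_neg (fun h => h1 h.1), if_neg (fun h => h1 h.1), add_zero]

lemma nn_fin (L : ℕ) (x : ℝ) : {n : ℕ | 1 ≤ n ∧ u n - x ∈ Set.Icc (-(L : ℝ)) L}.Finite :=
  (fin_le hu (x + L)).subset fun n hn => ⟨hn.1, by linarith [hn.2.2]⟩

lemma tup_sub {k : ℕ} {A : Set (Fin k → ℝ)} {L : ℕ} (hA : Bd L A) (x : ℝ) :
    {n : Fin k → ℕ | Function.Injective n ∧ (∀ i, 1 ≤ n i) ∧ (fun i => u (n i) - x) ∈ A} ⊆
      (Fintype.piFinset (fun _ : Fin k => (nn_fin hu L x).toFinset) : Set (Fin k → ℕ)) := by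
  rintro n ⟨-, h2, h3⟩
  rw [Finset.mem_coe, Fintype.mem_piFinset]
  intro i
  rw [Set.Finite.mem_toFinset]
  exact ⟨h2 i, abs_le.1 (hA _ h3 i)⟩

lemma tup_fin {k : ℕ} {A : Set (Fin k → ℝ)} {L : ℕ} (hA : Bd L A) (x : ℝ) :
    {n : Fin k → ℕ | Function.Injective n ∧ (∀ i, 1 ≤ n i) ∧
      (fun i => u (n i) - x) ∈ A}.Finite :=
  (Finset.finite_toSet _).subset (tup_sub hu hA x)

lemma Tn_le {k : ℕ} {A : Set (Fin k → ℝ)} {L : ℕ} (hA : Bd L A) (x : ℝ) :
    Tn u A x ≤ (nn u L x : ℝ) ^ k := by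
  have h1 := Set.ncard_le_ncard (tup_sub hu hA x) (Finset.finite_toSet _)
  rw [Set.ncard_coe_finset, Fintype.card_piFinset, Finset.prod_const, Finset.card_univ,
    Fintype.card_fin, ← Set.ncard_eq_toFinset_card _ (nn_fin hu L x)] at h1
  unfold Tn nn
  exact_mod_cast h1

/-- at least one tuple -/
lemma one_le_Tn {k : ℕ} {A : Set (Fin k → ℝ)} {L : ℕ} (hA : Bd L A) {x : ℝ} {n : Fin k → ℕ}
    (h1 : Function.Injective n) (h2 : ∀ i, 1 ≤ n i) (h3 : (fun i => u (n i) - x) ∈ A) :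
    1 ≤ Tn u A x := by
  have h4 := (Set.ncard_pos (tup_fin hu hA x)).2 ⟨n, h1, h2, h3⟩
  unfold Tn
  exact_mod_cast h4

lemma nn_int (L : ℕ) (g : ℕ → ℝ) (c d : ℝ) :
    IntervalIntegrable (fun x => g (nn u L x)) volume c d := by
  classical
  set S := ix hu (max c d + L) with hS
  set ph : ℝ → ℕ := fun x => (S.filter fun n => u n - x ∈ Set.Icc (-(L : ℝ)) L).card with hph
  have hmeas : Measurable ph := by
    rw [hph]
    simp only [Finset.card_filter]
    refine Finset.measurable_sum _ fun n _ => ?_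
    refine Measurable.ite ?_ measurable_const measurable_const
    exact (measurable_const.sub measurable_id) measurableSet_Icc
  have hle : ∀ x, ph x ≤ S.card := fun x => Finset.card_filter_le _ _
  obtain ⟨C, hC⟩ : ∃ C : ℝ, ∀ x, ‖g (ph x)‖ ≤ C :=
    ⟨∑ k ∈ range (S.card + 1), ‖g k‖, fun x =>
      Finset.single_le_sum (f := fun k => ‖g k‖) (fun k _ => norm_nonneg _)
        (Finset.mem_range.2 (Nat.lt_succ_of_le (hle x)))⟩
  rw [intervalIntegrable_iff]
  have hfin : IsFiniteMeasure (volume.restrict (Set.uIoc c d)) := by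
    refine ⟨?_⟩
    rw [Measure.restrict_apply_univ, Set.uIoc]
    exact measure_Ioc_lt_top
  have h1 : IntegrableOn (fun x => g (ph x)) (Set.uIoc c d) :=
    Integrable.of_bound (measurable_from_nat.comp hmeas).aestronglyMeasurable C
      (Eventually.of_forall hC)
  refine h1.congr_fun (fun x hx => ?_) measurableSet_uIoc
  have hx' : x ≤ max c d := (Set.mem_Ioc.1 hx).2
  have e : {n : ℕ | 1 ≤ n ∧ u n - x ∈ Set.Icc (-(L : ℝ)) L} =
      ((S.filter fun n => u n - x ∈ Set.Icc (-(L : ℝ)) L : Finset ℕ) : Set ℕ) := by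
    ext n
    simp only [Set.mem_ofPred_eq, Finset.coe_filter, hS, mem_ix]
    constructor
    · rintro ⟨h1, h2⟩
      exact ⟨⟨h1, by linarith [h2.2]⟩, h2⟩
    · rintro ⟨⟨h1, -⟩, h2⟩
      exact ⟨h1, h2⟩
  simp only [hph]
  unfold nn
  rw [e, Set.ncard_coe_finset]

end

/-! ### Means -/

lemma mean_mono {N : ℕ} {f g : ℝ → ℝ} (hf : IntervalIntegrable f volume 0 N)
    (hg : IntervalIntegrable g volume 0 N) (h : ∀ x, f x ≤ g x) : mean N f ≤ mean N g := by
  unfold mean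
  refine mul_le_mul_of_nonneg_left ?_ (by positivity)
  exact intervalIntegral.integral_mono (Nat.cast_nonneg N) hf hg h

lemma mean_nonneg {N : ℕ} {f : ℝ → ℝ} (h : ∀ x, 0 ≤ f x) : 0 ≤ mean N f := by
  unfold mean
  exact mul_nonneg (by positivity)
    (intervalIntegral.integral_nonneg (Nat.cast_nonneg N) fun x _ => h x)

lemma mean_add {N : ℕ} {f g : ℝ → ℝ} (hf : IntervalIntegrable f volume 0 N)
    (hg : IntervalIntegrable g volume 0 N) : mean N (fun x => f x + g x) = mean N f + mean N g := by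
  unfold mean
  rw [intervalIntegral.integral_add hf hg, mul_add]

lemma mean_sub {N : ℕ} {f g : ℝ → ℝ} (hf : IntervalIntegrable f volume 0 N)
    (hg : IntervalIntegrable g volume 0 N) : mean N (fun x => f x - g x) = mean N f - mean N g := by
  unfold mean
  rw [intervalIntegral.integral_sub hf hg, mul_sub]

lemma mean_mul {N : ℕ} (c : ℝ) (f : ℝ → ℝ) : mean N (fun x => c * f x) = c * mean N f := by
  unfold mean
  rw [intervalIntegral.integral_const_mul]
  ring

lemma mean_sum {N : ℕ} {ι : Type} (F : Finset ι) (f : ι → ℝ → ℝ)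
    (hf : ∀ i ∈ F, IntervalIntegrable (f i) volume 0 N) :
    mean N (fun x => ∑ i ∈ F, f i x) = ∑ i ∈ F, mean N (f i) := by
  unfold mean
  rw [intervalIntegral.integral_finsetSum hf, Finset.mul_sum]

/-- powers against exponentials -/
lemma pow_le_four (p n : ℕ) : (n : ℝ) ^ p ≤ p.factorial * 4 ^ n := by
  have h1 := Real.pow_div_factorial_le_exp (x := (n : ℝ)) (Nat.cast_nonneg n) p
  have hp : (0 : ℝ) < p.factorial := by exact_mod_cast Nat.factorial_pos p
  rw [div_le_iff₀ hp] at h1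
  have h2 : Real.exp (n : ℝ) ≤ 4 ^ n := by
    have h3 : Real.exp (n : ℝ) = Real.exp 1 ^ n := by
      rw [← Real.exp_nat_mul, mul_one]
    rw [h3]
    exact pow_le_pow_left₀ (Real.exp_pos 1).le (by linarith [Real.exp_one_lt_d9]) n
  calc (n : ℝ) ^ p ≤ Real.exp n * p.factorial := h1
    _ ≤ 4 ^ n * p.factorial := mul_le_mul_of_nonneg_right h2 hp.le
    _ = p.factorial * 4 ^ n := mul_comm _ _

/-- moments of the number of points -/
lemma moment {u : ℕ → ℝ} (hu : Sq u) {L : ℕ} {C : ℝ}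
    (hC : ∀ N : ℕ, 1 ≤ N → mean N (fun x => (4 : ℝ) ^ nn u L x) ≤ C) (p : ℕ) {N : ℕ}
    (hN : 1 ≤ N) : mean N (fun x => (nn u L x : ℝ) ^ p) ≤ p.factorial * C := by
  have h1 : mean N (fun x => (nn u L x : ℝ) ^ p) ≤
      mean N (fun x => (p.factorial : ℝ) * (4 : ℝ) ^ nn u L x) :=
    mean_mono (nn_int hu L (fun n => (n : ℝ) ^ p) _ _)
      ((nn_int hu L (fun n => (4 : ℝ) ^ n) _ _).const_mul _) fun x => pow_le_four p _
  rw [mean_mul] at h1
  exact h1.trans (mul_le_mul_of_nonneg_left (hC N hN) (by positivity))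

/-- the product of a rare quantity and of a power of the number of points -/
lemma rare {u : ℕ → ℝ} (hu : Sq u) {L : ℕ} {C : ℝ}
    (hC : ∀ N : ℕ, 1 ≤ N → mean N (fun x => (4 : ℝ) ^ nn u L x) ≤ C) (k p : ℕ) (c : ℝ)
    (hc : 0 ≤ c) (f D : ℝ → ℝ) {N : ℕ} (hN : 1 ≤ N)
    (hf : IntervalIntegrable f volume 0 N) (hD : IntervalIntegrable D volume 0 N)
    (hD0 : ∀ x, 0 ≤ D x) (hDn : ∀ x, D x ≤ c * (nn u L x : ℝ) ^ p)
    (h : ∀ x, f x ≤ D x * (nn u L x : ℝ) ^ k) (η : ℝ) (hη : 0 < η) :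
    mean N f ≤ 1 / 2 * (mean N D / η + η * (c * ((p + 2 * k).factorial * C))) := by
  have h1 : ∀ x, f x ≤ 1 / 2 * (1 / η * D x + η * (c * (nn u L x : ℝ) ^ (p + 2 * k))) := by
    intro x
    refine (h x).trans ?_
    set n : ℝ := (nn u L x : ℝ) ^ k with hn
    have hn0 : 0 ≤ n := by positivity
    have h2 : n * n = (nn u L x : ℝ) ^ (2 * k) := by
      rw [hn, ← pow_add]
      congr 1
      ring
    have h3 : D x * (n * n) ≤ c * (nn u L x : ℝ) ^ (p + 2 * k) := by
      rw [h2, pow_add, ← mul_assoc]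
      exact mul_le_mul_of_nonneg_right (hDn x) (by positivity)
    have h4 : D x * n * (2 * η) ≤ D x + η ^ 2 * (D x * (n * n)) := by
      nlinarith [mul_nonneg (hD0 x) (sq_nonneg (1 - η * n))]
    have h5 : D x * n ≤ 1 / 2 * (1 / η * D x + η * (D x * (n * n))) := by
      have h6 : 1 / 2 * (1 / η * D x + η * (D x * (n * n))) =
          (D x + η ^ 2 * (D x * (n * n))) / (2 * η) := by
        field_simp
      rw [h6, le_div_iff₀ (by positivity)]
      exact h4
    refine h5.trans ?_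
    have h7 : η * (D x * (n * n)) ≤ η * (c * (nn u L x : ℝ) ^ (p + 2 * k)) :=
      mul_le_mul_of_nonneg_left h3 hη.le
    linarith
  have hi := nn_int hu L (fun n => (n : ℝ) ^ (p + 2 * k)) 0 N
  have h2 := mean_mono hf (((hD.const_mul (1 / η)).add
    ((hi.const_mul c).const_mul η)).const_mul (1 / 2)) h1
  rw [mean_mul, mean_add (hD.const_mul (1 / η)) ((hi.const_mul c).const_mul η), mean_mul,
    mean_mul, mean_mul] at h2
  have h3 := moment hu hC (p + 2 * k) hN
  have h4 : η * (c * mean N (fun x => (nn u L x : ℝ) ^ (p + 2 * k))) ≤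
      η * (c * ((p + 2 * k).factorial * C)) :=
    mul_le_mul_of_nonneg_left (mul_le_mul_of_nonneg_left h3 hc) hη.le
  have h5 : mean N D / η = 1 / η * mean N D := by ring
  rw [h5]
  linarith

end Pool.Agent.Y51.SR4
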